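import Pool.Agent.Lib_helper74.NF.ClassesE

/-!
# Exponential time with advice, infinitely often, for the machine model of `CKF.Defs`
-/

set_option autoImplicit false

namespace Pool.Agent.CK

/-- `L` is decided infinitely often in exponential time with oracle `O` and `2 ^ (ε n)` bits of
advice: there are a program `c` and a number `k` such that for infinitely many `n` there is an
advice string `a` of length at most `2 ^ (ε n)` with which `c` decides `L` on all inputs `x` of
length at most `n` in time `2 ^ (k (n + 1))` (`x` on stack `0`, `a` on stack `1`). -/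
def InIoEAdvice (O : Lang) (ε : ℝ) (L : Lang) : Prop :=
  ∃ (c : Cmd) (k : ℕ), ∀ N : ℕ, ∃ n : ℕ, N ≤ n ∧ ∃ a : List Bool,
    (a.length : ℝ) ≤ (2 : ℝ) ^ (ε * n) ∧
    ∀ x : List Bool, x.length ≤ n → Halts O c x a (2 ^ (k * (n + 1))) ∧
      (Accepts O c x a (2 ^ (k * (n + 1))) ↔ L x = true)

end Pool.Agent.CK
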