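import Pool.Agent.Lib_helper74.NG.Two
import Pool.Agent.Lib_helper74.NG.ClassesA

/-! `E^(NP^O)` with advice. -/

set_option autoImplicit false
set_option linter.unusedSectionVars false

namespace Pool.Agent.CKP

open Pool.Agent.CK

variable {O : Lang} {W : ℕ → ℕ → Bool} {ℓ : ℕ → ℕ}
variable {α β γ δ : Type} [ToD α] [ToD β] [ToD γ] [ToD δ]

theorem exists_entry (hver : Ver O W ℓ) (j : ℕ) :
    ∃ e : Bool × ℕ, LeastSpec W j e ∧ e.2 < 2 ^ ℓ j := by
  classical
  by_cases h : ∃ v, W j v = true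
  · refine ⟨(true, Nat.find h), ⟨by simpa using h, fun _ => ⟨Nat.find_spec h, fun v hv =>
      Nat.find_min h hv⟩⟩, hver.hb _ _ (Nat.find_spec h)⟩
  · exact ⟨(false, 0), ⟨by simpa using h, fun h' => by simp at h'⟩, by positivity⟩

theorem exists_table (hver : Ver O W ℓ) (i0 : ℕ) :
    ∃ T : List (Bool × ℕ), T.length = i0 ∧ (∀ j < i0, LeastSpec W j (ent T j)) ∧
      ∀ j < i0, (ent T j).2 < 2 ^ ℓ j := by
  choose e he using exists_entry hver
  refine ⟨(List.range i0).map e, by simp, fun j hj => ?_, fun j hj => ?_⟩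
  · rw [ent_map_range e i0 j hj]; exact (he j).1
  · rw [ent_map_range e i0 j hj]; exact (he j).2

/-- a polynomial bound for the indices in `f y` -/
theorem exists_ind {f : List Bool → List Bool} (hf : PTime O f) :
    ∃ a : ℕ, 1 ≤ a ∧ ∀ y : List Bool, 3 * (f y).length + 1 ≤ (y.length + 2) ^ a := by
  obtain ⟨P, hP⟩ := hf.size_le
  obtain ⟨a, ha⟩ := exists_pow (3 * P.comp (4 * Polynomial.X + 1) + 1)
  refine ⟨a + 1, by omega, fun y => ?_⟩
  have h1 := ha y.length
  have h2 : (y.length + 2) ^ a ≤ (y.length + 2) ^ (a + 1) :=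
    Nat.pow_le_pow_right (by omega) (by omega)
  refine le_trans ?_ (h1.trans h2)
  have h3 := hP y
  have h4 : (f y).length ≤ sz (f y) := length_le_sz _
  have h5 : sz y ≤ 4 * y.length + 1 := size_bits y
  have h6 := poly_mono P h5
  simp only [Polynomial.eval_comp, Polynomial.eval_add, Polynomial.eval_mul,
    Polynomial.eval_ofNat, Polynomial.eval_X, Polynomial.eval_one]
  omega

/-- If all long instances of the second kind with a long `x` are positive, then the universal
language is in `P^O`. -/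
theorem uk_ptime (hneg : ∀ C, TuringComplete O C → ManyOneComplete O C) (hver : Ver O W ℓ)
    {r k N0 : ℕ} {f : List Bool → List Bool} (hfP : PTime O f)
    (hf : ∀ w, UK O w = CL O W r k (f w))
    (hlarge : ∀ x, N0 ≤ x.length → typ (f x) = true → valid W r k (f x) = true →
      x.length ≤ (xx (f x)).length → UK O x = true) : PTime O (UK O) := by
  obtain ⟨a, ha1, ha⟩ := exists_ind hfP
  obtain ⟨k', hk'⟩ := CL_complete hver
  obtain ⟨f', hfp', hf'⟩ := (hneg _ (hk' (2 * a) (by omega))).2 (ZL W) (ZL_inNP hver)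
  have hfP' := ptime_of_inFP hfp'
  have hpad : UPoly O (fun _ => 0) := UPoly.const 0
  obtain ⟨M, hM, hcol⟩ := exists_colB hver hfP' hpad
  obtain ⟨T0, hT0, hT1, hT2⟩ := exists_table hver (4 ^ a + 1)
  set dk : List (Bool × ℕ) → List Bool → Bool := fun T y => chainK O W r k N0 f T y with hdk
  have hdkP : PTime O (fun p : List (Bool × ℕ) × List Bool => dk p.1 p.2) :=
    PTime.chainK hver hfP PTime.id.fst PTime.id.snd
  have htab := tableG_spec (ℓ := ℓ) (pad := fun _ => 0) (M := M) (r := 2 * a) (k := k')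
    (f := f') (dk := dk) hver hf' hcol T0 (by rw [hT0]; exact hT1) (by
      intro T hTl hTs y hy
      rw [hdk]
      simp only
      rw [chainK_spec hf hlarge hTs y ?_]
      intro y' hy'
      refine lt_of_le_of_lt ((ha y').trans (Nat.pow_le_pow_left
        (show y'.length + 2 ≤ y.length + 2 by omega) a)) ?_
      by_cases hb : y.length ≤ 2
      · refine lt_of_le_of_lt (Nat.pow_le_pow_left (show y.length + 2 ≤ 4 by omega) a) ?_
        omega
      · refine lt_of_lt_of_le ?_ hy
        rw [pow_mul]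
        refine Nat.pow_lt_pow_left ?_ (by omega)
        nlinarith)
  have hU : UPoly O (fun n => (n + 2) ^ a) := UPoly.tb a
  have hP : PTime O (fun x : List Bool => chainK O W r k N0 f
      (tableG W ℓ (fun _ => 0) M (2 * a) k' f' dk T0 (List.replicate ((x.length + 2) ^ a) ()))
      x) :=
    PTime.chainK hver hfP (PTime.tableG hver hfP' hpad hM hdkP (by rw [hT0]; exact hT2)
      (hU.comp (PTime.id (α := List Bool)))) PTime.id
  refine hP.of_eq fun x => ?_
  obtain ⟨h1, h2⟩ := htab ((x.length + 2) ^ a)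
  refine chainK_spec hf hlarge (by rw [h1]; exact h2) x fun y hy => ?_
  rw [h1, hT0]
  have h3 := (ha y).trans (Nat.pow_le_pow_left (show y.length + 2 ≤ x.length + 2 by omega) a)
  have h4 : 0 < 4 ^ a := by positivity
  omega

/-- `UK O` is not in `P^O` if the notions of completeness coincide -/
theorem uk_not_ptime (hneg : ∀ C, TuringComplete O C → ManyOneComplete O C) :
    ¬ PTime O (UK O) := by
  intro hP
  have hE : InNP O (fun _ => false) := by
    refine inNP_of (V := fun _ => false) (PTime.const false) (B := fun _ => 0) (UPoly.const 0)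
      ?_ ?_
    · intro x hx; simp at hx
    · intro x y hxy; simp at hxy
  have hA : InNP O (fun _ => true) := by
    refine inNP_of (V := fun _ => true) (PTime.const true) (B := fun _ => 0) (UPoly.const 0)
      (fun x _ => ⟨[], by simp, rfl⟩) (fun _ _ _ => rfl)
  obtain ⟨f, _, hf⟩ := (hneg _ (turingComplete_of hE (PTime.lift hP))).2 _ hA
  have := hf []
  simp at this

/-- the computation with advice -/
theorem adv_machine {f : List Bool → List Bool} (hfP : PTime O f) {F : List Unit → ℕ → Bool}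
    (hF : PTime O (fun p : List Unit × ℕ => F p.1 p.2)) :
    ∃ (c : Cmd) (j : ℕ), ∀ x a : List Bool, ∃ t ≤ (x.length + a.length + 2 ^ (x.length + 1) + 2) ^ j,
      Halts O c x a t ∧ (Accepts O c x a t ↔
        F (List.replicate (num x) ()) (ent (wss (f a)) (num x)).2 = true) := by
  have he1 : PTime O (fun p : List Bool × List Bool => () :: ulen p.1) :=
    PTime.cons (PTime.const ()) (PTime.ulen PTime.id.fst)
  have h1 := XT.exp he1
  have hnum : PTime O (fun q : List Unit × (List Bool × List Bool) => toNum q.1 q.2.1) :=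
    PTime.toNum PTime.id.fst PTime.id.snd.fst
  have h3 : PTime O (fun q : List Unit × (List Bool × List Bool) =>
      F (toNum q.1 q.2.1) (ent (wss (f q.2.2)) (toNum q.1 q.2.1).length).2) :=
    hF.comp (hnum.pair (PTime.ent (PTime.wss (hfP.comp PTime.id.snd.snd)) hnum).snd)
  have h4 := (XT.of_ptime h3 (fun _ => 0)).comp h1
  have h5 : XT O (fun p : List Bool × List Bool =>
      F (List.replicate (num p.1) ()) (ent (wss (f p.2)) (num p.1)).2)
      (fun p => 2 ^ (p.1.length + 1)) := by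
    have h6 := h4.mono (g' := fun p : List Bool × List Bool => 2 ^ (p.1.length + 1))
      (10 * Polynomial.X + 10) ?_
    · have h7 : (fun p : List Bool × List Bool =>
          F (toNum (List.replicate (2 ^ (() :: ulen p.1).length) ()) p.1)
            (ent (wss (f p.2)) (toNum (List.replicate (2 ^ (() :: ulen p.1).length) ())
              p.1).length).2) =
          fun p : List Bool × List Bool => F (List.replicate (num p.1) ())
            (ent (wss (f p.2)) (num p.1)).2 := by
        funext p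
        rw [hnum_aux, List.length_replicate]
      rw [← h7]
      exact h6
    · intro p
      rw [sz_pair, sz_units, List.length_replicate, hlen_aux]
      simp only [Polynomial.eval_add, Polynomial.eval_mul, Polynomial.eval_ofNat,
        Polynomial.eval_X]
      omega
  exact h5.run_dec2

theorem exists_n2 {r : ℕ} (hr : 1 ≤ r) {ε : ℝ} (hrε : 1 / (r : ℝ) < ε) :
    ∃ n2 : ℕ, ∀ n : ℕ, n2 ≤ n → ((n : ℝ) + 2) / r ≤ ε * n := by
  have hr0 : (0 : ℝ) < r := by exact_mod_cast (by omega : 0 < r)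
  have hd : 0 < ε - 1 / (r : ℝ) := by linarith
  obtain ⟨n2, hn2⟩ := exists_nat_ge (2 / r / (ε - 1 / (r : ℝ)))
  refine ⟨n2, fun n hn => ?_⟩
  have h1 : 2 / r / (ε - 1 / (r : ℝ)) ≤ n := hn2.trans (by exact_mod_cast hn)
  rw [div_le_iff₀ hd] at h1
  have h2 : ((n : ℝ) + 2) / r = n * (1 / (r : ℝ)) + 2 / r := by field_simp
  rw [h2]
  linarith

theorem enp_advice (hneg : ∀ C, TuringComplete O C → ManyOneComplete O C) {ε : ℝ}
    (hε : 0 < ε) {B L : Lang} (hB : InNP O B) (c : Cmd) (k : ℕ)
    (hL : ∀ x : List Bool, Accepts (join O B) c x [] (2 ^ (k * (x.length + 1))) ↔ L x = true) :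
    InIoEAdvice O ε L := by
  by_contra hcon
  obtain ⟨r, hr, hrε⟩ := exists_r hε
  obtain ⟨g, b, hg, hb, hver, hans⟩ := enp_setup hB c k
  obtain ⟨k1, hk1⟩ := CL_complete hver
  obtain ⟨f, hfp, hf⟩ := (hneg _ (hk1 r hr)).2 (UK O) UK_inNP
  have hfP := ptime_of_inFP hfp
  obtain ⟨p, j, hp⟩ := adv_machine hfP (F := fun u v =>
    ansT O c str g b (fun m => (2 ^ ((str m).length + 1)) ^ k) u.length v)
    (PTime.ansT c str_ptime hg hb (E1_upoly.pow k))
  obtain ⟨N1, hN1⟩ : ∃ N1 : ℕ, ∀ n : ℕ, N1 ≤ n → ∀ a : List Bool,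
      (a.length : ℝ) ≤ (2 : ℝ) ^ (ε * n) →
      ¬ ∀ x : List Bool, x.length ≤ n → Halts O p x a (2 ^ (3 * j * (n + 1))) ∧
        (Accepts O p x a (2 ^ (3 * j * (n + 1))) ↔ L x = true) := by
    by_contra h
    push_neg at h
    refine hcon ⟨p, 3 * j, fun N => ?_⟩
    obtain ⟨n, hn, a, ha, hx⟩ := h N
    exact ⟨n, hn, a, ha, hx⟩
  obtain ⟨n2, hn2⟩ := exists_n2 hr hrε
  refine uk_not_ptime hneg (uk_ptime (N0 := 2 ^ (max N1 n2 + 2)) hneg hver hfP hf ?_)
  intro x hx ht hv hlen
  by_contra hxK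
  have hCL : ¬ CLP O (WT O c str g b fun m => (2 ^ ((str m).length + 1)) ^ k) r k1 (f x) := by
    rw [← CL_iff, ← hf]
    exact hxK
  have hguard : ∀ v, ¬ guardW (WT O c str g b fun m => (2 ^ ((str m).length + 1)) ^ k)
      (wss (f x)) v = true := fun v hv' => hCL (Or.inr ⟨ht, hv, Or.inr ⟨v, hv'⟩⟩)
  unfold valid at hv
  rw [Bool.and_eq_true, Bool.and_eq_true, decide_eq_true_eq] at hv
  obtain ⟨⟨hv1, _⟩, hv2⟩ := hv
  have hspec : ∀ i < (wss (f x)).length, LeastSpec
      (WT O c str g b fun m => (2 ^ ((str m).length + 1)) ^ k) i (ent (wss (f x)) i) := by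
    intro i hi
    have h1 := checkW_iff.mp hv2 i hi
    have h2 : ∀ v, ((ent (wss (f x)) i).1 = false ∨ v < (ent (wss (f x)) i).2) →
        ¬ WT O c str g b (fun m => (2 ^ ((str m).length + 1)) ^ k) i v = true := fun v h3 h4 =>
      hguard v (guardW_iff.mpr ⟨i, hi, h3, h4⟩)
    refine ⟨⟨fun h => ⟨_, h1 h⟩, fun ⟨v, hv⟩ => ?_⟩, fun h => ⟨h1 h, fun v hv => h2 v (Or.inr hv)⟩⟩
    by_contra h3
    exact h2 v (Or.inl (by simpa using h3)) hv
  -- the length
  set N := x.length with hN
  have hNpos : N ^ r ≠ 0 := by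
    have : 0 < N := lt_of_lt_of_le (by positivity) hx
    positivity
  have hlog1 : max N1 n2 + 2 ≤ Nat.log 2 (N ^ r) := by
    refine Nat.le_log_of_pow_le (by norm_num) ?_
    exact hx.trans (Nat.le_self_pow (by omega) N)
  obtain ⟨n, hn⟩ : ∃ n, Nat.log 2 (N ^ r) = n + 1 := ⟨Nat.log 2 (N ^ r) - 1, by omega⟩
  have hnN : max N1 n2 ≤ n := by omega
  have hp1 : 2 ^ (n + 1) ≤ N ^ r := by
    rw [← hn]; exact Nat.pow_log_le_self 2 hNpos
  have hp2 : N ^ r < 2 ^ (n + 2) := by
    have := Nat.lt_pow_succ_log_self (show 1 < 2 by norm_num) (N ^ r)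
    rwa [hn] at this
  have hN2 : N < 2 ^ (n + 2) := lt_of_le_of_lt (Nat.le_self_pow (by omega) N) hp2
  refine hN1 n ((le_max_left _ _).trans hnN) x ?_ ?_
  · have hr0 : (r : ℝ) ≠ 0 := by
      have : (0 : ℝ) < r := by exact_mod_cast (by omega : 0 < r)
      exact this.ne'
    have h1 : ((N : ℝ) ^ r) ≤ (2 : ℝ) ^ (n + 2) := by exact_mod_cast hp2.le
    have h2 : (N : ℝ) = ((N : ℝ) ^ r) ^ (1 / (r : ℝ)) := by
      rw [← Real.rpow_natCast, ← Real.rpow_mul (by positivity), mul_one_div_cancel hr0,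
        Real.rpow_one]
    rw [← hN, h2]
    refine (Real.rpow_le_rpow (by positivity) h1 (by positivity)).trans ?_
    rw [← Real.rpow_natCast, ← Real.rpow_mul (by norm_num)]
    refine Real.rpow_le_rpow_of_exponent_le (by norm_num) ?_
    have h3 := hn2 n ((le_max_right _ _).trans hnN)
    push_cast
    rw [mul_one_div]
    exact h3
  · intro x' hx'
    obtain ⟨t, ht1, ht2, ht3⟩ := hp x' x
    have hT : t ≤ 2 ^ (3 * j * (n + 1)) := by
      refine ht1.trans ?_
      have h8 : x'.length + x.length + 2 ^ (x'.length + 1) + 2 ≤ 2 ^ (3 * (n + 1)) := by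
        have g1 : n + 2 ≤ 2 ^ (n + 1) := by
          have := Nat.lt_two_pow_self (n := n + 1)
          omega
        have g2 : 2 ^ (x'.length + 1) ≤ 2 ^ (n + 1) :=
          Nat.pow_le_pow_right (by norm_num) (by omega)
        have g3 : 2 ^ (n + 2) = 2 * 2 ^ (n + 1) := by rw [pow_succ]; ring
        have g4 : 2 ^ (n + 3) = 4 * 2 ^ (n + 1) := by rw [pow_succ, pow_succ]; ring
        have g5 : 2 ^ (n + 3) ≤ 2 ^ (3 * (n + 1)) :=
          Nat.pow_le_pow_right (by norm_num) (by omega)
        omega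
      calc (x'.length + x.length + 2 ^ (x'.length + 1) + 2) ^ j ≤ (2 ^ (3 * (n + 1))) ^ j :=
            Nat.pow_le_pow_left h8 j
        _ = 2 ^ (3 * j * (n + 1)) := by rw [← pow_mul]; congr 1; ring
    have hst := run_stable ht2 hT
    have h9 : Accepts O p x' x (2 ^ (3 * j * (n + 1))) ↔ Accepts O p x' x t := by
      unfold Accepts
      rw [hst]
    refine ⟨?_, ?_⟩
    · unfold Halts at ht2 ⊢
      rw [hst]
      exact ht2
    · rw [h9, ht3, List.length_replicate]
      have hnum : num x' < (wss (f x)).length := by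
        have g1 := num_lt x'
        have g2 : 2 ^ (x'.length + 1) ≤ 2 ^ (n + 1) :=
          Nat.pow_le_pow_right (by norm_num) (by omega)
        have g3 : N ^ r ≤ (xx (f x)).length ^ r := Nat.pow_le_pow_left hlen r
        have g4 : (xx (f x)).length ^ r ≤ (wss (f x)).length := hv1
        omega
      have h8 := hans (num x') _ (hspec _ hnum)
      rw [ne_exp, str_num] at h8
      rw [h8, hL]

end Pool.Agent.CKP
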