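import Pool.Agent.Lib_helper74.NG.PTG

/-! Deciding the universal language with a table of least witnesses. -/

set_option autoImplicit false
set_option linter.unusedSectionVars false

namespace Pool.Agent.CKP

open Pool.Agent.CK

/-- `(active, answer)` and the current instance -/
abbrev KSt := (Bool × Bool) × List Bool

section defs

variable (O : Lang) (W : ℕ → ℕ → Bool) (r k N0 : ℕ) (f : List Bool → List Bool)

/-- one step of the chain -/
def cstep (T : List (Bool × ℕ)) (s : KSt) : KSt :=
  if s.1.1 = true then
    if decide (s.2.length < N0) = true then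
      ((false, (brute O s.2 (List.replicate (2 ^ N0) ())).2), [])
    else if typ (f s.2) = true then
      if valid W r k (f s.2) = true then
        if guardT (wss (f s.2)) T = true then ((false, true), [])
        else if decide ((xx (f s.2)).length < s.2.length) = true then ((true, false), xx (f s.2))
        else ((false, true), [])
      else ((false, false), [])
    else ((false, (ent T (colr (f s.2)).length).1 &&
      decide ((ent T (colr (f s.2)).length).2 < thr (f s.2))), [])
  else s

/-- the decider of the universal language -/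
def chainK (T : List (Bool × ℕ)) (x : List Bool) : Bool :=
  ((() :: ulen x).foldl (fun s _ => cstep O W r k N0 f T s) ((true, false), x)).1.2

end defs

variable {O : Lang} {W : ℕ → ℕ → Bool} {ℓ : ℕ → ℕ} {r k N0 : ℕ} {f : List Bool → List Bool}
variable {α β γ δ : Type} [ToD α] [ToD β] [ToD γ] [ToD δ]

theorem least_lt_iff {j t : ℕ} {e : Bool × ℕ} (h : LeastSpec W j e) :
    (e.1 && decide (e.2 < t)) = true ↔ ∃ v < t, W j v = true := by
  rw [Bool.and_eq_true, decide_eq_true_eq]
  constructor
  · rintro ⟨h1, h2⟩
    exact ⟨e.2, h2, (h.2 h1).1⟩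
  · rintro ⟨v, hv, hW⟩
    have h1 := h.1.mpr ⟨v, hW⟩
    refine ⟨h1, ?_⟩
    by_contra h2
    exact (h.2 h1).2 v (by omega) hW

theorem guardT_eq {ws T : List (Bool × ℕ)} (hT : ∀ j < ws.length, LeastSpec W j (ent T j)) :
    guardT ws T = true ↔ ∃ v, guardW W ws v = true := by
  rw [guardT_iff]
  constructor
  · rintro ⟨j, hj, h1, h2⟩
    exact ⟨_, guardW_iff.mpr ⟨j, hj, h2, ((hT j hj).2 h1).1⟩⟩
  · rintro ⟨v, hg⟩
    obtain ⟨j, hj, h1, h2⟩ := guardW_iff.mp hg
    have h3 := (hT j hj).1.mpr ⟨v, h2⟩
    refine ⟨j, hj, h3, h1.imp_right fun h4 => ?_⟩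
    have h5 := ((hT j hj).2 h3).2
    by_contra h6
    exact h5 v (by omega) h2

theorem cstep_spec (hf : ∀ w, UK O w = CL O W r k (f w))
    (hlarge : ∀ x, N0 ≤ x.length → typ (f x) = true → valid W r k (f x) = true →
      x.length ≤ (xx (f x)).length → UK O x = true)
    {T : List (Bool × ℕ)} (hT : ∀ j < T.length, LeastSpec W j (ent T j)) (a : Bool)
    (x : List Bool) (hx : 3 * (f x).length + 1 < T.length) :
    ((cstep O W r k N0 f T ((true, a), x)).1.1 = false ∧
      (cstep O W r k N0 f T ((true, a), x)).1.2 = UK O x) ∨
    ((cstep O W r k N0 f T ((true, a), x)).1.1 = true ∧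
      UK O (cstep O W r k N0 f T ((true, a), x)).2 = UK O x ∧
      (cstep O W r k N0 f T ((true, a), x)).2.length < x.length) := by
  unfold cstep
  simp only [if_true]
  by_cases hN : x.length < N0
  · rw [if_pos (by simpa using hN)]
    refine Or.inl ⟨rfl, ?_⟩
    have h1 := brute_eq (O := O) (x := x) (N := List.replicate (2 ^ N0) ()) (by
      rw [List.length_replicate]
      exact Nat.pow_le_pow_right (by norm_num) (by omega))
    exact Bool.eq_iff_iff.mpr h1
  rw [if_neg (by simpa using hN)]
  have hw := wss_le (f x)
  have hc := colr_le (f x)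
  have hK := hf x
  by_cases ht : typ (f x) = true
  · rw [if_pos ht]
    by_cases hv : valid W r k (f x) = true
    · rw [if_pos hv]
      have hg := guardT_eq (W := W) (ws := wss (f x)) (T := T) (fun j hj => hT j (by omega))
      have hCL : UK O x = true ↔ UK O (xx (f x)) = true ∨ ∃ v, guardW W (wss (f x)) v = true := by
        rw [hK, CL_iff]
        constructor
        · rintro (⟨h1, _⟩ | ⟨_, _, h⟩)
          · rw [ht] at h1; simp at h1
          · exact h
        · exact fun h => Or.inr ⟨ht, hv, h⟩
      by_cases hgt : guardT (wss (f x)) T = true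
      · rw [if_pos hgt]
        exact Or.inl ⟨rfl, (hCL.mpr (Or.inr (hg.mp hgt))).symm⟩
      · rw [if_neg hgt]
        by_cases hl : (xx (f x)).length < x.length
        · rw [if_pos (by simpa using hl)]
          refine Or.inr ⟨rfl, ?_, hl⟩
          rw [Bool.eq_iff_iff, hCL]
          exact ⟨Or.inl, fun h => h.resolve_right fun h' => hgt (hg.mpr h')⟩
        · rw [if_neg (by simpa using hl)]
          exact Or.inl ⟨rfl, (hlarge x (by omega) ht hv (by omega)).symm⟩
    · rw [if_neg hv]
      refine Or.inl ⟨rfl, ?_⟩
      have h1 : ¬ UK O x = true := by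
        rw [hK, CL_iff]
        rintro (⟨h1, _⟩ | ⟨_, h1, _⟩)
        · rw [ht] at h1; simp at h1
        · exact hv h1
      simpa using h1
  · rw [if_neg ht]
    refine Or.inl ⟨rfl, ?_⟩
    rw [Bool.eq_iff_iff, least_lt_iff (hT _ (by omega)), hK, CL_iff]
    constructor
    · exact fun h => Or.inl ⟨by simpa using ht, h⟩
    · rintro (⟨_, h⟩ | ⟨h1, _⟩)
      · exact h
      · exact absurd h1 ht

theorem chainK_spec (hf : ∀ w, UK O w = CL O W r k (f w))
    (hlarge : ∀ x, N0 ≤ x.length → typ (f x) = true → valid W r k (f x) = true →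
      x.length ≤ (xx (f x)).length → UK O x = true)
    {T : List (Bool × ℕ)} (hT : ∀ j < T.length, LeastSpec W j (ent T j))
    (x : List Bool) (hx : ∀ y : List Bool, y.length ≤ x.length → 3 * (f y).length + 1 < T.length) :
    chainK O W r k N0 f T x = UK O x := by
  have key : ∀ j : ℕ, j ≤ x.length + 1 →
      (((List.replicate j ()).foldl (fun s _ => cstep O W r k N0 f T s)
          ((true, false), x)).1.1 = false ∧
        ((List.replicate j ()).foldl (fun s _ => cstep O W r k N0 f T s)
          ((true, false), x)).1.2 = UK O x) ∨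
      (((List.replicate j ()).foldl (fun s _ => cstep O W r k N0 f T s)
          ((true, false), x)).1.1 = true ∧
        UK O ((List.replicate j ()).foldl (fun s _ => cstep O W r k N0 f T s)
          ((true, false), x)).2 = UK O x ∧
        ((List.replicate j ()).foldl (fun s _ => cstep O W r k N0 f T s)
          ((true, false), x)).2.length + j ≤ x.length) := by
    intro j
    induction j with
    | zero => intro _; exact Or.inr ⟨rfl, rfl, le_rfl⟩
    | succ j ih =>
      intro hj
      have ih := ih (by omega)
      rw [List.replicate_succ', List.foldl_append]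
      simp only [List.foldl_cons, List.foldl_nil]
      generalize (List.replicate j ()).foldl (fun s _ => cstep O W r k N0 f T s)
        ((true, false), x) = s at ih
      obtain ⟨⟨b, a⟩, y⟩ := s
      simp only at ih
      rcases ih with ⟨rfl, h2⟩ | ⟨rfl, h2, h3⟩
      · left
        unfold cstep
        simp only [Bool.false_eq_true, if_false]
        exact ⟨trivial, h2⟩
      · rcases cstep_spec hf hlarge hT a y (hx y (by omega)) with ⟨g1, g2⟩ | ⟨g1, g2, g3⟩
        · exact Or.inl ⟨g1, g2.trans h2⟩
        · exact Or.inr ⟨g1, g2.trans h2, by omega⟩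
  have h1 : (() :: ulen x) = List.replicate (x.length + 1) () := by
    rw [ulen_eq]; rfl
  unfold chainK
  rw [h1]
  rcases key (x.length + 1) le_rfl with ⟨_, h⟩ | ⟨_, _, h⟩
  · exact h
  · omega

theorem cstep_len (T : List (Bool × ℕ)) (s : KSt) :
    (cstep O W r k N0 f T s).2.length ≤ s.2.length := by
  unfold cstep
  split
  · split
    · simp
    · split
      · split
        · split
          · simp
          · split
            · rename_i h
              rw [decide_eq_true_eq] at h
              exact h.le
            · simp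
        · simp
      · simp
  · exact le_rfl

theorem PTime.cstep (hver : Ver O W ℓ) (hf : PTime O f) {T : γ → List (Bool × ℕ)}
    {s : γ → KSt} (hT : PTime O T) (hs : PTime O s) :
    PTime O (fun a => CKP.cstep O W r k N0 f (T a) (s a)) := by
  unfold CKP.cstep
  have hq := hf.comp hs.snd
  have hend : ∀ {b : γ → Bool}, PTime O b → PTime O (fun a => (((false, b a), []) : KSt)) :=
    fun hb => ((PTime.const false).pair hb).pair (PTime.const [])
  have hent := PTime.ent hT hq.colr
  refine PTime.ite hs.fst.fst (PTime.ite (PTime.nat_lt hs.snd.length (PTime.const N0))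
    (hend (PTime.brute hs.snd (PTime.const (List.replicate (2 ^ N0) ()))).snd)
    (PTime.ite hq.typ (PTime.ite (PTime.valid hver r k hq) (PTime.ite (PTime.guardT hq.wss hT)
      (hend (PTime.const true)) (PTime.ite (PTime.nat_lt hq.xx.length hs.snd.length)
        ((PTime.const (true, false)).pair hq.xx) (hend (PTime.const true))))
      (hend (PTime.const false))) (hend (hent.fst.and (PTime.nat_lt hent.snd hq.thr))))) hs

theorem PTime.chainK (hver : Ver O W ℓ) (hf : PTime O f) {T : γ → List (Bool × ℕ)}
    {x : γ → List Bool} (hT : PTime O T) (hx : PTime O x) :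
    PTime O (fun a => CKP.chainK O W r k N0 f (T a) (x a)) := by
  obtain ⟨Px, hPx⟩ := hx.size_le
  unfold CKP.chainK
  refine PTime.snd (PTime.fst (PTime.foldl (l := fun a => () :: CKP.ulen (x a))
    (i := fun a => ((true, false), x a)) (s := fun a s _ => CKP.cstep O W r k N0 f (T a) s)
    (PTime.cons (PTime.const ()) (PTime.ulen hx)) ((PTime.const (true, false)).pair hx)
    (PTime.cstep hver hf (hT.comp PTime.id.fst) PTime.id.snd.fst) (4 * Px + 10) ?_))
  intro a l' _
  have key : ∀ (l : List Unit) (s : KSt),
      (l.foldl (fun s _ => CKP.cstep O W r k N0 f (T a) s) s).2.length ≤ s.2.length := by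
    intro l
    induction l with
    | nil => intro s; exact le_rfl
    | cons c t ih => intro s; rw [List.foldl_cons]; exact (ih _).trans (cstep_len _ _)
  have h1 := key l' ((true, false), x a)
  generalize l'.foldl (fun s _ => CKP.cstep O W r k N0 f (T a) s) ((true, false), x a) = s at h1
  obtain ⟨⟨b, c⟩, y⟩ := s
  simp only at h1
  have h2 : sz (((b, c), y) : KSt) = sz b + sz c + 1 + sz y + 1 := rfl
  have h3 := (num_bool_sz b).2
  have h4 := (num_bool_sz c).2
  have h5 : sz y ≤ 4 * y.length + 1 := size_bits y
  have h6 : (x a).length ≤ Px.eval (sz a) := (length_le_sz _).trans (hPx a)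
  simp only [Polynomial.eval_add, Polynomial.eval_mul, Polynomial.eval_ofNat]
  omega

end Pool.Agent.CKP
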