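import Pool.Agent.Lib_helper74.NG.SearchG

/-! The search with a decider is a polynomial time computation. -/

set_option autoImplicit false
set_option linter.unusedSectionVars false

namespace Pool.Agent.CKP

open Pool.Agent.CK

variable {O : Lang} {W : ℕ → ℕ → Bool} {ℓ pad M : ℕ → ℕ} {r k : ℕ} {f : List Bool → List Bool}
  {dk : List (Bool × ℕ) → List Bool → Bool}
variable {α β γ δ : Type} [ToD α] [ToD β] [ToD γ] [ToD δ]

theorem PTime.clsG (hver : Ver O W ℓ) (hf : PTime O f) (hpad : UPoly O pad)
    (hdk : PTime O (fun p : List (Bool × ℕ) × List Bool => dk p.1 p.2))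
    {T : γ → List (Bool × ℕ)} {n i : γ → List Unit} {a U : γ → ℕ}
    (hT : PTime O T) (hn : PTime O n) (hi : PTime O i) (ha : PTime O a)
    (hU : PTime O U) :
    PTime O (fun x => CKP.clsG W pad r k f dk (T x) (n x) (i x) (a x) (U x)) := by
  have hq : PTime O (fun x => f (zc (n x) (i x) (a x) (U x)
      (List.replicate (pad (n x).length) ()))) :=
    hf.comp (PTime.enc (hn.code.consD (hi.code.consD (ha.code.consD
      (hU.code.consD (hpad.comp hn).code)))))
  unfold CKP.clsG CKP.clsQG
  have hdrop : PTime O (fun _ : γ => (((false, false), 0, 0, 0) : Res)) := PTime.const _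
  have honly : ∀ {b : γ → ℕ}, PTime O b →
      PTime O (fun x => (((true, true), 0, 0, b x) : Res)) := fun hb =>
    (PTime.const (true, true)).pair ((PTime.const 0).pair ((PTime.const 0).pair hb))
  have hent := PTime.ent hq.wss hn
  refine PTime.ite hq.typ (PTime.ite (PTime.valid hver r k hq) (PTime.ite
    (PTime.nat_lt hn.length hq.wss.length) (PTime.ite (hent.fst.and (PTime.nat_lt hent.snd hU))
      (honly (PTime.ushr hi hent.snd)) (honly ha)) (PTime.ite
      ((hdk.comp (hT.pair hq.xx)).or (PTime.guardT hq.wss hT)) (honly ha) hdrop)) hdrop) ?_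
  exact (PTime.const (true, false)).pair (hq.colr.length.pair (hq.thr.pair ha))

theorem PTime.levelG (hver : Ver O W ℓ) (hf : PTime O f) (hpad : UPoly O pad) (hM : UPoly O M)
    (hdk : PTime O (fun p : List (Bool × ℕ) × List Bool => dk p.1 p.2))
    {T : γ → List (Bool × ℕ)} {n : γ → List Unit} {U : γ → ℕ} {s : γ → List Unit × List ℕ}
    (hT : PTime O T) (hn : PTime O n) (hU : PTime O U) (hs : PTime O s) :
    PTime O (fun x => CKP.levelG W pad M r k f dk (T x) (n x) (U x) (s x)) := by
  unfold CKP.levelG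
  refine (PTime.tail hs.fst).pair (PTime.prune (hM.comp hn) ?_)
  refine PTime.map (f := fun x a => CKP.clsG W pad r k f dk (T x) (n x) (s x).1.tail a (U x))
    (PTime.children hs.snd) ?_
  exact PTime.clsG hver hf hpad hdk (hT.comp PTime.id.fst)
    (hn.comp PTime.id.fst) (PTime.tail ((hs.comp PTime.id.fst).fst)) PTime.id.snd
    (hU.comp PTime.id.fst)

theorem PTime.searchG (hver : Ver O W ℓ) (hf : PTime O f) (hpad : UPoly O pad) (hM : UPoly O M)
    (hdk : PTime O (fun p : List (Bool × ℕ) × List Bool => dk p.1 p.2))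
    {T : γ → List (Bool × ℕ)} {n : γ → List Unit} {U : γ → ℕ}
    (hT : PTime O T) (hn : PTime O n) (hU : PTime O U) :
    PTime O (fun x => CKP.searchG W ℓ pad M r k f dk (T x) (n x) (U x)) := by
  obtain ⟨Pl, hPl⟩ := hver.hl.bound
  obtain ⟨PM, hPM⟩ := hM.bound
  obtain ⟨Pn, hPn⟩ := hn.size_le
  unfold CKP.searchG
  refine PTime.hit hver hn hU (PTime.snd ?_)
  refine PTime.foldl (l := fun x => List.replicate (ℓ (n x).length) ())
    (i := fun x => (List.replicate (ℓ (n x).length) (), [0]))
    (s := fun x s _ => CKP.levelG W pad M r k f dk (T x) (n x) (U x) s) (hver.hl.comp hn)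
    ((hver.hl.comp hn).pair (PTime.const [0])) ?_
    (2 * Pl.comp Pn + 2 + ((PM.comp Pn + 1) * (4 * Pl.comp Pn + 2) + 1)) ?_
  · exact PTime.levelG hver hf hpad hM hdk (hT.comp PTime.id.fst)
      (hn.comp PTime.id.fst) (hU.comp PTime.id.fst) PTime.id.snd.fst
  · intro x l' hl'
    obtain ⟨j, hj⟩ : ∃ j, ℓ (n x).length = j + l'.length := by
      have := hl'.length_le
      rw [List.length_replicate] at this
      exact ⟨ℓ (n x).length - l'.length, by omega⟩
    have h1 := fold_sizeG (pad := pad) (M := M) (r := r) (k := k) (f := f) (dk := dk) hver (T x)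
      (n x) (U x) l'.length j hj.symm
    rw [← units_eq l'] at h1
    obtain ⟨h2, h3, h4⟩ := h1
    generalize l'.foldl (fun s _ => CKP.levelG W pad M r k f dk (T x) (n x) (U x) s)
      (List.replicate (ℓ (n x).length) (), [0]) = s at h2 h3 h4
    obtain ⟨s1, s2⟩ := s
    simp only at h2 h3 h4
    subst h2
    rw [sz_pair, sz_units, List.length_replicate]
    have hlen : (n x).length ≤ Pn.eval (sz x) := (length_le_sz _).trans (hPn x)
    have h5 : ℓ (n x).length ≤ Pl.eval (Pn.eval (sz x)) := (hPl _).trans (poly_mono Pl hlen)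
    have h6 : M (n x).length ≤ PM.eval (Pn.eval (sz x)) := (hPM _).trans (poly_mono PM hlen)
    have h7 := sz_list_le (s := 4 * Pl.eval (Pn.eval (sz x)) + 1) s2 (by
      intro c hc
      have h8 := sz_nat_le_of_lt (h3 c hc)
      omega)
    have h9 : s2.length * (4 * Pl.eval (Pn.eval (sz x)) + 1 + 1) ≤
        (PM.eval (Pn.eval (sz x)) + 1) * (4 * Pl.eval (Pn.eval (sz x)) + 2) :=
      Nat.mul_le_mul (by omega) (by omega)
    simp only [Polynomial.eval_add, Polynomial.eval_mul, Polynomial.eval_ofNat,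
      Polynomial.eval_one, Polynomial.eval_comp]
    omega

theorem PTime.leastG (hver : Ver O W ℓ) (hf : PTime O f) (hpad : UPoly O pad) (hM : UPoly O M)
    (hdk : PTime O (fun p : List (Bool × ℕ) × List Bool => dk p.1 p.2))
    {T : γ → List (Bool × ℕ)} {n : γ → List Unit}
    (hT : PTime O T) (hn : PTime O n) :
    PTime O (fun x => CKP.leastG W ℓ pad M r k f dk (T x) (n x)) := by
  unfold CKP.leastG
  exact PTime.gfind (g := fun x U => CKP.searchG W ℓ pad M r k f dk (T x) (n x) U)
    (hver.hl.comp hn) (PTime.searchG hver hf hpad hM hdk (hT.comp PTime.id.fst)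
      (hn.comp PTime.id.fst) PTime.id.snd)

theorem sz_table_le {T : List (Bool × ℕ)} {L : ℕ} (h : ∀ j < T.length, (ent T j).2 < 2 ^ L) :
    sz T ≤ T.length * (4 * L + 6) + 1 := by
  refine sz_list_le (s := 4 * L + 5) T ?_
  intro c hc
  obtain ⟨i, hi, rfl⟩ := List.getElem_of_mem hc
  have h4 : CKP.ent T i = T[i] := by
    unfold CKP.ent
    rw [List.getD_eq_getElem?_getD, List.getElem?_eq_getElem hi, Option.getD_some]
  have h5 := h i hi
  rw [h4] at h5
  have h6 := sz_nat_le_of_lt h5
  have h7 := (num_bool_sz T[i].1).2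
  have h8 : sz T[i] = sz T[i].1 + sz T[i].2 + 1 := rfl
  omega

theorem PTime.tableG (hver : Ver O W ℓ) (hf : PTime O f) (hpad : UPoly O pad) (hM : UPoly O M)
    (hdk : PTime O (fun p : List (Bool × ℕ) × List Bool => dk p.1 p.2))
    {T0 : List (Bool × ℕ)} (h0 : ∀ j < T0.length, (CKP.ent T0 j).2 < 2 ^ ℓ j)
    {n : γ → List Unit} (hn : PTime O n) :
    PTime O (fun x => CKP.tableG W ℓ pad M r k f dk T0 (n x)) := by
  obtain ⟨Pl, hPl⟩ := hver.hl.bound
  obtain ⟨Pn, hPn⟩ := hn.size_le
  unfold CKP.tableG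
  refine PTime.foldl (l := n) (i := fun _ => T0)
    (s := fun x T _ => T ++ [CKP.leastG W ℓ pad M r k f dk T (CKP.ulen T)]) hn
    (PTime.const _) ?_
    ((Polynomial.C T0.length + Pn) * (4 * Pl.comp (Polynomial.C T0.length + Pn) + 6) + 1) ?_
  · exact PTime.append PTime.id.snd.fst (PTime.cons (PTime.leastG hver hf hpad hM hdk
      PTime.id.snd.fst (PTime.ulen PTime.id.snd.fst)) (PTime.const []))
  · intro x l' hl'
    rw [units_eq l']
    have hlen : l'.length ≤ Pn.eval (sz x) :=
      (hl'.length_le.trans (length_le_sz _)).trans (hPn x)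
    have h1 := tableG_size (W := W) (ℓ := ℓ) (pad := pad) (M := M) (r := r) (k := k)
      (f := f) (dk := dk) T0 h0 l'.length
    unfold CKP.tableG at h1
    generalize (List.replicate l'.length ()).foldl
      (fun T _ => T ++ [CKP.leastG W ℓ pad M r k f dk T (CKP.ulen T)]) T0 = T at h1
    obtain ⟨h2, h3⟩ := h1
    have h4 : sz T ≤ T.length * (4 * Pl.eval (T0.length + Pn.eval (sz x)) + 6) + 1 := by
      refine sz_table_le fun j hj => ?_
      rw [h2] at hj
      refine lt_of_lt_of_le (h3 j hj) (Nat.pow_le_pow_right (by norm_num) ?_)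
      exact (hPl j).trans (poly_mono Pl (by omega))
    rw [h2] at h4
    refine h4.trans ?_
    simp only [Polynomial.eval_add, Polynomial.eval_mul, Polynomial.eval_ofNat,
      Polynomial.eval_one, Polynomial.eval_comp, Polynomial.eval_C]
    exact Nat.add_le_add_right (Nat.mul_le_mul_right _ (by omega)) 1

end Pool.Agent.CKP
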