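import Pool.Agent.Lib_helper74.NF.ENPB


/-! The pruned search with a decider for the universal language. -/

set_option autoImplicit false
set_option linter.unusedSectionVars false

namespace Pool.Agent.CKP

open Pool.Agent.CK

section search

variable (W : ℕ → ℕ → Bool) (ℓ pad M : ℕ → ℕ) (r k : ℕ) (f : List Bool → List Bool)
  (dk : List (Bool × ℕ) → List Bool → Bool)

/-- classification of the image `q` of the node `a`; `dk` decides the universal language -/
def clsQG (T : List (Bool × ℕ)) (n i : List Unit) (a U : ℕ) (q : List Bool) : Res :=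
  if typ q = true then
    if valid W r k q = true then
      if decide (n.length < (wss q).length) = true then
        if ((ent (wss q) n.length).1 && decide ((ent (wss q) n.length).2 < U)) = true then
          ((true, true), 0, 0, ushr i (ent (wss q) n.length).2)
        else ((true, true), 0, 0, a)
      else if (dk T (xx q) || guardT (wss q) T) = true then ((true, true), 0, 0, a)
      else ((false, false), 0, 0, 0)
    else ((false, false), 0, 0, 0)
  else ((true, false), (colr q).length, thr q, a)

/-- classification of the node `a` on level `i` -/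
def clsG (T : List (Bool × ℕ)) (n i : List Unit) (a U : ℕ) : Res :=
  clsQG W r k dk T n i a U (f (zc n i a U (List.replicate (pad n.length) ())))

/-- one level of the search -/
def levelG (T : List (Bool × ℕ)) (n : List Unit) (U : ℕ) (s : List Unit × List ℕ) :
    List Unit × List ℕ :=
  (s.1.tail, prune (List.replicate (M n.length) ())
    ((children s.2).map (fun a => clsG W pad r k f dk T n s.1.tail a U)))

/-- the search for a witness of `n` below `U` -/
def searchG (T : List (Bool × ℕ)) (n : List Unit) (U : ℕ) : Bool :=
  hit W n U ((List.replicate (ℓ n.length) ()).foldl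
    (fun s _ => levelG W pad M r k f dk T n U s) (List.replicate (ℓ n.length) (), [0])).2

/-- the least witness for `n` -/
def leastG (T : List (Bool × ℕ)) (n : List Unit) : Bool × ℕ :=
  gfind (searchG W ℓ pad M r k f dk T n) (List.replicate (ℓ n.length) ())

/-- the table of the least witnesses, starting with the table `T0` -/
def tableG (T0 : List (Bool × ℕ)) (n : List Unit) : List (Bool × ℕ) :=
  n.foldl (fun T _ => T ++ [leastG W ℓ pad M r k f dk T (ulen T)]) T0

end search

variable {O : Lang} {W : ℕ → ℕ → Bool} {ℓ pad M : ℕ → ℕ} {r k : ℕ} {f : List Bool → List Bool}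
  {dk : List (Bool × ℕ) → List Bool → Bool}

theorem cls_specG (hver : Ver O W ℓ) (hf : ∀ w, ZL W w = CL O W r k (f w))
    (T : List (Bool × ℕ)) (n i : List Unit) (a U : ℕ)
    (hT : ∀ j < n.length, LeastSpec W j (ent T j))
    (hN : ∀ y : List Bool, y.length ^ r ≤ n.length → (dk T y = true ↔ UK O y = true))
    (hi : i.length ≤ ℓ n.length) (ha : a < 2 ^ (ℓ n.length - i.length)) :
    ClsSpec W (ℓ n.length) n.length i.length a U (clsG W pad r k f dk T n i a U) := by
  have hz : SN W n.length i.length a U ↔
      CLP O W r k (f (zc n i a U (List.replicate (pad n.length) ()))) := by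
    rw [← CL_iff, ← hf, ZL_zc]
    exact Iff.rfl
  unfold clsG
  generalize f (zc n i a U (List.replicate (pad n.length) ())) = q at hz
  unfold clsQG
  by_cases ht : typ q = true
  · rw [if_pos ht]
    by_cases hv : valid W r k q = true
    · rw [if_pos hv]
      have hck : ∀ j < (wss q).length, (ent (wss q) j).1 = true →
          W j (ent (wss q) j).2 = true := by
        unfold valid at hv
        rw [Bool.and_eq_true] at hv
        exact checkW_iff.mp hv.2
      by_cases hl : n.length < (wss q).length
      · rw [if_pos (by simpa using hl)]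
        by_cases he : ((ent (wss q) n.length).1 && decide ((ent (wss q) n.length).2 < U)) = true
        · rw [if_pos he]
          rw [Bool.and_eq_true, decide_eq_true_eq] at he
          have hWn := hck n.length hl he.1
          refine ⟨by simp, fun _ _ => ?_, by simp, fun _ => ?_⟩
          · refine ⟨_, ?_, he.2, hWn⟩
            rw [ushr_eq]
          · simp only
            rw [ushr_eq]
            have h1 := hver.hb _ _ hWn
            apply Nat.div_lt_of_lt_mul
            rw [← pow_add]
            rwa [Nat.add_sub_cancel' hi]
        · rw [if_neg he]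
          refine ⟨by simp, fun _ hex => ?_, by simp, fun _ => ha⟩
          simp only
          rw [hz]
          obtain ⟨v, hvU, hWv⟩ := hex
          refine Or.inr ⟨ht, hv, Or.inr ⟨v, guardW_iff.mpr ⟨n.length, hl, ?_, hWv⟩⟩⟩
          rw [Bool.and_eq_true, decide_eq_true_eq] at he
          by_cases h0 : (ent (wss q) n.length).1 = true
          · right
            have : ¬ (ent (wss q) n.length).2 < U := fun h => he ⟨h0, h⟩
            omega
          · left
            simpa using h0
      · rw [if_neg (by simpa using hl)]
        have hl' : (wss q).length ≤ n.length := by omega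
        have hbr : dk T (xx q) = true ↔ UK O (xx q) = true := by
          refine hN _ ?_
          unfold valid at hv
          rw [Bool.and_eq_true, Bool.and_eq_true, decide_eq_true_eq] at hv
          omega
        have hg : guardT (wss q) T = true ↔ ∃ v, guardW W (wss q) v = true := by
          rw [guardT_iff]
          constructor
          · rintro ⟨j, hj, h1, h2⟩
            exact ⟨_, guardW_iff.mpr ⟨j, hj, h2, ((hT j (by omega)).2 h1).1⟩⟩
          · rintro ⟨v, hg⟩
            obtain ⟨j, hj, h1, h2⟩ := guardW_iff.mp hg
            have h3 := (hT j (by omega)).1.mpr ⟨v, h2⟩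
            refine ⟨j, hj, h3, h1.imp_right fun h4 => ?_⟩
            have h5 := ((hT j (by omega)).2 h3).2
            by_contra h6
            exact h5 v (by omega) h2
        have hiff : (dk T (xx q) || guardT (wss q) T) = true ↔
            SN W n.length i.length a U := by
          rw [Bool.or_eq_true, hbr, hg, hz]
          constructor
          · exact fun h => Or.inr ⟨ht, hv, h⟩
          · rintro (⟨h1, _⟩ | ⟨_, _, h⟩)
            · rw [ht] at h1; simp at h1
            · exact h
        by_cases hc : (dk T (xx q) || guardT (wss q) T) = true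
        · rw [if_pos hc]
          exact ⟨by simp, fun _ _ => hiff.mp hc, by simp, fun _ => ha⟩
        · rw [if_neg hc]
          exact ⟨fun _ h => hc (hiff.mpr h), by simp, by simp, by simp⟩
    · rw [if_neg hv]
      refine ⟨fun _ h => ?_, by simp, by simp, by simp⟩
      rcases hz.mp h with ⟨h1, _⟩ | ⟨_, h1, _⟩
      · rw [ht] at h1; simp at h1
      · exact hv h1
  · rw [if_neg ht]
    refine ⟨by simp, by simp, fun _ => ⟨rfl, ?_⟩, by simp⟩
    simp only
    rw [hz]
    constructor
    · rintro (⟨_, h1⟩ | ⟨h1, _⟩)
      · exact h1
      · exact absurd h1 ht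
    · intro h1
      exact Or.inl ⟨by simpa using ht, h1⟩

theorem cls_colG (hM : ColB W ℓ pad M f) (T : List (Bool × ℕ)) (n i : List Unit) (a U : ℕ)
    (hi : i.length ≤ ℓ n.length) (ha : a < 2 ^ ℓ n.length) (hU : U ≤ 2 ^ ℓ n.length)
    (h : (clsG W pad r k f dk T n i a U).1 = (true, false)) :
    (clsG W pad r k f dk T n i a U).2.1 < M n.length := by
  have h1 := hM n i a U hi ha hU
  unfold clsG at h ⊢
  generalize f (zc n i a U (List.replicate (pad n.length) ())) = q at h h1
  unfold clsQG at h ⊢
  by_cases ht : typ q = true
  · rw [if_pos ht] at h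
    exfalso
    revert h
    split <;> [skip; simp]
    split <;> [skip; skip]
    · split <;> simp
    · split <;> simp
  · rw [if_neg ht]
    exact h1

theorem level_sizeG (hver : Ver O W ℓ) (T : List (Bool × ℕ)) (n : List Unit) (U : ℕ)
    (s : List Unit) (l : List ℕ) (hs : s ≠ []) (hsl : s.length ≤ ℓ n.length)
    (h : ∀ a ∈ l, a < 2 ^ (ℓ n.length - s.length)) :
    SInv (ℓ n.length) (M n.length) s.tail.length
      (levelG W pad M r k f dk T n U (s, l)).2 := by
  obtain ⟨u, s', rfl⟩ := List.exists_cons_of_ne_nil hs
  rw [List.length_cons] at hsl h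
  have hch : ∀ b ∈ children l, b < 2 ^ (ℓ n.length - s'.length) := by
    intro b hb
    have h1 := h _ (mem_children.mp hb)
    have h2 : ℓ n.length - s'.length = (ℓ n.length - (s'.length + 1)) + 1 := by omega
    rw [h2, pow_succ]
    omega
  -- nodes of a classification are small
  have hnode : ∀ b, b < 2 ^ (ℓ n.length - s'.length) →
      (clsG W pad r k f dk T n s' b U).2.2.2 < 2 ^ (ℓ n.length - s'.length) := by
    intro b hb
    have hpos : 0 < 2 ^ (ℓ n.length - s'.length) := by positivity
    unfold clsG
    generalize f (zc n s' b U (List.replicate (pad n.length) ())) = q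
    unfold clsQG
    split
    · split
      · rename_i hv
        split
        · rename_i hl
          split
          · rename_i he
            rw [Bool.and_eq_true] at he
            have hck : ∀ j < (wss q).length, (ent (wss q) j).1 = true →
                W j (ent (wss q) j).2 = true := by
              unfold valid at hv
              rw [Bool.and_eq_true] at hv
              exact checkW_iff.mp hv.2
            have hWn := hck n.length (by simpa using hl) he.1
            simp only
            rw [ushr_eq]
            have h1 := hver.hb _ _ hWn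
            apply Nat.div_lt_of_lt_mul
            rw [← pow_add]
            rwa [Nat.add_sub_cancel' (by omega)]
          · exact hb
        · split
          · exact hb
          · exact hpos
      · exact hpos
    · exact hb
  unfold levelG
  simp only [List.tail_cons]
  rcases prune_spec (List.replicate (M n.length) ())
    ((children l).map (fun a => clsG W pad r k f dk T n s' a U)) with ⟨x, hx, _, h2⟩ | ⟨_, h2⟩
  · rw [h2]
    refine ⟨?_, by simp⟩
    intro a ha
    simp only [List.mem_singleton] at ha
    obtain ⟨b, hb, rfl⟩ := List.mem_map.mp hx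
    rw [ha]
    exact hnode b (hch b hb)
  · rw [h2, List.length_replicate]
    constructor
    · intro a ha
      obtain ⟨m, _, ha⟩ := List.mem_flatMap.mp ha
      obtain ⟨x, hx, _, _, h3, _⟩ := (best_spec _ m).1 a ha
      obtain ⟨b, hb, rfl⟩ := List.mem_map.mp hx
      rw [← h3]
      exact hnode b (hch b hb)
    · rw [List.length_flatMap]
      have : ∀ (L : List ℕ) (R : List Res), (L.map fun m => (best R m).length).sum ≤ L.length := by
        intro L R
        induction L with
        | nil => simp
        | cons a t ih =>
          have := (best_spec R a).2.2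
          simp only [List.map_cons, List.sum_cons, List.length_cons]
          omega
      have h3 := this (List.range (M n.length)) ((children l).map (fun a => clsG W pad r k f dk T n s' a U))
      rw [List.length_range] at h3
      omega

theorem level_invG (hver : Ver O W ℓ) (hf : ∀ w, ZL W w = CL O W r k (f w))
    (hM : ColB W ℓ pad M f) (T : List (Bool × ℕ)) (n : List Unit) (U : ℕ)
    (hU : U ≤ 2 ^ ℓ n.length)
    (hT : ∀ j < n.length, LeastSpec W j (ent T j))
    (hN : ∀ y : List Bool, y.length ^ r ≤ n.length → (dk T y = true ↔ UK O y = true))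
    (hex : ∃ v < U, W n.length v = true)
    (s : List Unit) (l : List ℕ) (hs : s ≠ []) (hsl : s.length ≤ ℓ n.length)
    (h : ∀ a ∈ l, a < 2 ^ (ℓ n.length - s.length))
    (hinv : ∃ a ∈ l, SN W n.length s.length a U) :
    ∃ a ∈ (levelG W pad M r k f dk T n U (s, l)).2, SN W n.length s.tail.length a U := by
  obtain ⟨u, s', rfl⟩ := List.exists_cons_of_ne_nil hs
  rw [List.length_cons] at hsl h hinv
  have hch : ∀ b ∈ children l, b < 2 ^ (ℓ n.length - s'.length) := by
    intro b hb
    have h1 := h _ (mem_children.mp hb)
    have h2 : ℓ n.length - s'.length = (ℓ n.length - (s'.length + 1)) + 1 := by omega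
    rw [h2, pow_succ]
    omega
  have hspec : ∀ b ∈ children l, ClsSpec W (ℓ n.length) n.length s'.length b U
      (clsG W pad r k f dk T n s' b U) := fun b hb =>
    cls_specG hver hf T n s' b U hT hN (by omega) (hch b hb)
  obtain ⟨a, ha, v, hv, hvU, hWv⟩ := hinv
  -- the good child
  set b := v / 2 ^ s'.length with hb
  have hbc : b ∈ children l := by
    rw [mem_children, hb, Nat.div_div_eq_div_mul, ← pow_succ, hv]
    exact ha
  have hSb : SN W n.length s'.length b U := ⟨v, rfl, hvU, hWv⟩
  unfold levelG
  simp only [List.tail_cons]
  rcases prune_spec (List.replicate (M n.length) ())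
    ((children l).map (fun a => clsG W pad r k f dk T n s' a U)) with ⟨x, hx, h1, h2⟩ | ⟨h1, h2⟩
  · rw [h2]
    obtain ⟨c, hc, rfl⟩ := List.mem_map.mp hx
    exact ⟨_, by simp, (hspec c hc).only h1 hex⟩
  · rw [h2, List.length_replicate]
    have hxb : clsG W pad r k f dk T n s' b U ∈ (children l).map (fun a => clsG W pad r k f dk T n s' a U) :=
      List.mem_map_of_mem hbc
    have hx1 : (clsG W pad r k f dk T n s' b U).1 = (true, false) := by
      have g1 := h1 _ hxb
      have g2 := (hspec b hbc).drop
      rcases hcls : clsG W pad r k f dk T n s' b U with ⟨⟨p, q⟩, z⟩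
      rw [hcls] at g1 g2
      simp only at g1 g2 ⊢
      cases p
      · exact absurd hSb (g2 rfl)
      · cases q
        · rfl
        · exact absurd rfl g1
    have hcol := cls_colG (W := W) (r := r) (k := k) (dk := dk) hM T n s' b U (by omega)
      (lt_of_lt_of_le (hch b hbc) (Nat.pow_le_pow_right (by norm_num) (Nat.sub_le _ _))) hU hx1
    obtain ⟨p1, p2, _⟩ := best_spec ((children l).map (fun a => clsG W pad r k f dk T n s' a U))
      (clsG W pad r k f dk T n s' b U).2.1
    have hne := p2 ⟨_, hxb, rfl, hx1⟩
    obtain ⟨c, t, hct⟩ := List.exists_cons_of_ne_nil hne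
    have hcm : c ∈ best ((children l).map (fun a => clsG W pad r k f dk T n s' a U))
      (clsG W pad r k f dk T n s' b U).2.1 := by rw [hct]; simp
    obtain ⟨x, hx, e1, e2, e3, e4⟩ := p1 c hcm
    obtain ⟨d, hd, rfl⟩ := List.mem_map.mp hx
    refine ⟨c, List.mem_flatMap.mpr ⟨_, List.mem_range.mpr hcol, hcm⟩, ?_⟩
    obtain ⟨g1, g2⟩ := (hspec d hd).col e2
    rw [← e3, g1, g2, e1]
    obtain ⟨_, g3⟩ := (hspec b hbc).col hx1
    obtain ⟨v', hv', hW'⟩ := g3.mp hSb
    exact ⟨v', lt_of_lt_of_le hv' (e4 _ hxb rfl hx1), hW'⟩

/-- the sizes during the fold of the levels -/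
theorem fold_sizeG (hver : Ver O W ℓ) (T : List (Bool × ℕ)) (n : List Unit) (U : ℕ) :
    ∀ j i : ℕ, i + j = ℓ n.length →
      ((List.replicate j ()).foldl (fun s _ => levelG W pad M r k f dk T n U s)
        (List.replicate (ℓ n.length) (), [0])).1 = List.replicate i () ∧
      SInv (ℓ n.length) (M n.length) i
        ((List.replicate j ()).foldl (fun s _ => levelG W pad M r k f dk T n U s)
          (List.replicate (ℓ n.length) (), [0])).2 := by
  intro j
  induction j with
  | zero =>
    intro i hi
    simp only [List.replicate_zero, List.foldl_nil]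
    have : i = ℓ n.length := by omega
    subst this
    refine ⟨rfl, ?_, by simp⟩
    intro a ha
    simp only [List.mem_singleton] at ha
    rw [ha]
    positivity
  | succ j ih =>
    intro i hi
    obtain ⟨h1, h2⟩ := ih (i + 1) (by omega)
    rw [List.replicate_succ', List.foldl_append]
    simp only [List.foldl_cons, List.foldl_nil]
    generalize (List.replicate j ()).foldl (fun s _ => levelG W pad M r k f dk T n U s)
        (List.replicate (ℓ n.length) (), [0]) = s at h1 h2
    obtain ⟨s1, s2⟩ := s
    simp only at h1 h2
    subst h1
    refine ⟨by unfold levelG; simp [List.replicate_succ], ?_⟩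
    have := level_sizeG (M := M) (pad := pad) (r := r) (k := k) (f := f) (dk := dk) hver T n U
      (List.replicate (i + 1) ()) s2 (by simp [List.replicate_succ]) (by simp; omega)
      (by simpa using h2.1)
    simpa using this

theorem search_specG (hver : Ver O W ℓ) (hf : ∀ w, ZL W w = CL O W r k (f w))
    (hM : ColB W ℓ pad M f) (T : List (Bool × ℕ)) (n : List Unit) (U : ℕ)
    (hU : U ≤ 2 ^ ℓ n.length)
    (hT : ∀ j < n.length, LeastSpec W j (ent T j))
    (hN : ∀ y : List Bool, y.length ^ r ≤ n.length → (dk T y = true ↔ UK O y = true)) :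
    searchG W ℓ pad M r k f dk T n U = true ↔ ∃ v < U, W n.length v = true := by
  unfold searchG
  rw [hit_iff]
  refine ⟨fun ⟨a, _, h1, h2⟩ => ⟨a, h1, h2⟩, fun hex => ?_⟩
  have key : ∀ j i : ℕ, i + j = ℓ n.length →
      ∃ a ∈ ((List.replicate j ()).foldl (fun s _ => levelG W pad M r k f dk T n U s)
        (List.replicate (ℓ n.length) (), [0])).2, SN W n.length i a U := by
    intro j
    induction j with
    | zero =>
      intro i hi
      obtain ⟨v, hvU, hv⟩ := hex
      refine ⟨0, by simp, v, ?_, hvU, hv⟩
      have : i = ℓ n.length := by omega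
      rw [this]
      exact Nat.div_eq_of_lt (hver.hb _ _ hv)
    | succ j ih =>
      intro i hi
      obtain ⟨g1, g2⟩ := fold_sizeG (M := M) (pad := pad) (r := r) (k := k) (f := f) (dk := dk) hver T n U j
        (i + 1) (by omega)
      have g3 := ih (i + 1) (by omega)
      rw [List.replicate_succ', List.foldl_append]
      simp only [List.foldl_cons, List.foldl_nil]
      generalize (List.replicate j ()).foldl (fun s _ => levelG W pad M r k f dk T n U s)
          (List.replicate (ℓ n.length) (), [0]) = s at g1 g2 g3
      obtain ⟨s1, s2⟩ := s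
      simp only at g1 g2 g3
      subst g1
      have := level_invG (M := M) (pad := pad) (r := r) (k := k) (f := f) (dk := dk) hver hf hM T n U hU hT
        hN hex (List.replicate (i + 1) ()) s2 (by simp [List.replicate_succ]) (by simp; omega)
        (by simpa using g2.1) (by simpa using g3)
      simpa using this
  obtain ⟨a, ha, v, hv, hvU, hWv⟩ := key (ℓ n.length) 0 (by simp)
  rw [pow_zero, Nat.div_one] at hv
  subst hv
  exact ⟨v, ha, hvU, hWv⟩

theorem least_specG (hver : Ver O W ℓ) (hf : ∀ w, ZL W w = CL O W r k (f w))
    (hM : ColB W ℓ pad M f) (T : List (Bool × ℕ)) (n : List Unit)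
    (hT : ∀ j < n.length, LeastSpec W j (ent T j))
    (hN : ∀ y : List Bool, y.length ^ r ≤ n.length → (dk T y = true ↔ UK O y = true)) :
    LeastSpec W n.length (leastG W ℓ pad M r k f dk T n) := by
  unfold leastG
  obtain ⟨h1, h2, _⟩ := gfind_spec (P := fun v => W n.length v = true) (L := ℓ n.length)
    (g := searchG W ℓ pad M r k f dk T n)
    (fun t ht => search_specG hver hf hM T n t ht hT hN) (hver.hb n.length)
  exact ⟨h1, h2⟩

theorem tableG_succ (T0 : List (Bool × ℕ)) (n : ℕ) :
    tableG W ℓ pad M r k f dk T0 (List.replicate (n + 1) ()) =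
      tableG W ℓ pad M r k f dk T0 (List.replicate n ()) ++
        [leastG W ℓ pad M r k f dk (tableG W ℓ pad M r k f dk T0 (List.replicate n ()))
          (ulen (tableG W ℓ pad M r k f dk T0 (List.replicate n ())))] := by
  unfold tableG
  rw [List.replicate_succ', List.foldl_append]
  rfl

theorem ent_append (T : List (Bool × ℕ)) (e : Bool × ℕ) (j : ℕ) (hj : j < T.length + 1) :
    ent (T ++ [e]) j = if j < T.length then ent T j else e := by
  unfold ent
  split
  · rename_i h
    rw [List.getD_append _ _ _ _ h]
  · rename_i h
    have : j = T.length := by omega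
    subst this
    rw [List.getD_append_right _ _ _ _ le_rfl]
    simp

theorem leastG_lt (T : List (Bool × ℕ)) (n : List Unit) :
    (leastG W ℓ pad M r k f dk T n).2 < 2 ^ ℓ n.length := gfind_lt _ _

theorem tableG_size (T0 : List (Bool × ℕ)) (h0 : ∀ j < T0.length, (ent T0 j).2 < 2 ^ ℓ j)
    (n : ℕ) : (tableG W ℓ pad M r k f dk T0 (List.replicate n ())).length = T0.length + n ∧
      ∀ j < T0.length + n,
        (ent (tableG W ℓ pad M r k f dk T0 (List.replicate n ())) j).2 < 2 ^ ℓ j := by
  induction n with
  | zero => exact ⟨rfl, h0⟩
  | succ n ih =>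
    obtain ⟨h1, h2⟩ := ih
    rw [tableG_succ]
    generalize tableG W ℓ pad M r k f dk T0 (List.replicate n ()) = T at h1 h2
    refine ⟨by rw [List.length_append, h1]; rfl, fun j hj => ?_⟩
    rw [ent_append _ _ _ (by omega)]
    split
    · exact h2 j (by omega)
    · have h3 := leastG_lt (W := W) (ℓ := ℓ) (pad := pad) (M := M) (r := r) (k := k) (f := f)
        (dk := dk) T (ulen T)
      rw [ulen_eq, List.length_replicate] at h3
      have h4 : j = T.length := by omega
      rw [h4, ulen_eq]
      exact h3

theorem tableG_spec (hver : Ver O W ℓ) (hf : ∀ w, ZL W w = CL O W r k (f w))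
    (hM : ColB W ℓ pad M f) (T0 : List (Bool × ℕ))
    (h0 : ∀ j < T0.length, LeastSpec W j (ent T0 j))
    (hdk : ∀ T : List (Bool × ℕ), T0.length ≤ T.length →
      (∀ j < T.length, LeastSpec W j (ent T j)) → ∀ y : List Bool, y.length ^ r ≤ T.length →
        (dk T y = true ↔ UK O y = true))
    (n : ℕ) : (tableG W ℓ pad M r k f dk T0 (List.replicate n ())).length = T0.length + n ∧
      ∀ j < T0.length + n,
        LeastSpec W j (ent (tableG W ℓ pad M r k f dk T0 (List.replicate n ())) j) := by
  induction n with
  | zero => exact ⟨rfl, h0⟩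
  | succ n ih =>
    obtain ⟨h1, h2⟩ := ih
    rw [tableG_succ]
    generalize tableG W ℓ pad M r k f dk T0 (List.replicate n ()) = T at h1 h2
    rw [← h1] at h2
    refine ⟨by rw [List.length_append, h1]; rfl, fun j hj => ?_⟩
    rw [ent_append _ _ _ (by omega)]
    split
    · exact h2 j (by omega)
    · have h3 := least_specG (ℓ := ℓ) (pad := pad) (M := M) (r := r) (k := k) (f := f) (dk := dk)
        hver hf hM T (List.replicate T.length ()) (by
          rw [List.length_replicate]
          exact h2) (by
          rw [List.length_replicate]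
          exact hdk T (by omega) h2)
      rw [List.length_replicate] at h3
      have h4 : j = T.length := by omega
      rw [h4, ulen_eq]
      exact h3

end Pool.Agent.CKP
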