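import Pool.Agent.Lib_helper74.NG.Chain

/-! Computations on two input stacks. -/

set_option autoImplicit false
set_option linter.unusedSectionVars false

namespace Pool.Agent.CKP

open Pool.Agent.CK

variable {O : Lang}
variable {α β γ δ : Type} [ToD α] [ToD β] [ToD γ] [ToD δ]

/-- code the contents of stacks `0` and `1` as a pair on stack `0` -/
def pairP : Cmd :=
  .seq (mv 0 2) (.seq (mv 1 3) (.seq (.push 0 false) (.seq (conv 3) (.seq (.push 0 false)
    (.seq (conv 2) (.push 0 true))))))

theorem pairP_ex (σ : Store) (x y : List Bool) : Ex O pairP (S4 σ x y [] [])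
    (S4 σ (toD (x, y)).enc [] [] []) (16 * x.length + 16 * y.length + 20) := by
  have e1 : Ex O (mv 0 2) (S4 σ x y [] []) (S4 σ [] y x.reverse []) (5 * x.length + 1) := by
    have := mv_ex (O := O) (r := 0) (s := 2) (by decide) x (S4 σ x y [] []) rfl
    rw [S4_u2, S4_u0] at this
    simpa [S4] using this
  have e2 : Ex O (mv 1 3) (S4 σ [] y x.reverse []) (S4 σ [] [] x.reverse y.reverse)
      (5 * y.length + 1) := by
    have := mv_ex (O := O) (r := 1) (s := 3) (by decide) y (S4 σ [] y x.reverse []) rfl
    rw [S4_u3, S4_u1] at this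
    simpa [S4] using this
  have e3 : Ex O (.push 0 false) (S4 σ [] [] x.reverse y.reverse)
      (S4 σ [false] [] x.reverse y.reverse) 1 := by
    have := Ex.push (O := O) 0 false (S4 σ [] [] x.reverse y.reverse)
    rw [S4_u0] at this
    exact this
  have e4 : Ex O (conv 3) (S4 σ [false] [] x.reverse y.reverse)
      (S4 σ (toD y).enc [] x.reverse []) (11 * y.length + 1) := by
    have := conv_ex (O := O) (r := 3) (by decide) y.reverse [] []
      (S4 σ [false] [] x.reverse y.reverse) rfl rfl
    rw [S4_u3, S4_u0] at this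
    simpa using this
  have e5 : Ex O (.push 0 false) (S4 σ (toD y).enc [] x.reverse [])
      (S4 σ (false :: (toD y).enc) [] x.reverse []) 1 := by
    have := Ex.push (O := O) 0 false (S4 σ (toD y).enc [] x.reverse [])
    rw [S4_u0] at this
    exact this
  have e6 : Ex O (conv 2) (S4 σ (false :: (toD y).enc) [] x.reverse [])
      (S4 σ ((toD x).enc ++ (toD y).enc) [] [] []) (11 * x.length + 1) := by
    have := conv_ex (O := O) (r := 2) (by decide) x.reverse [] (toD y).enc
      (S4 σ (false :: (toD y).enc) [] x.reverse []) rfl rfl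
    rw [S4_u2, S4_u0, List.reverse_reverse, List.append_nil] at this
    refine this.mono ?_
    rw [List.length_reverse]
  have e7 : Ex O (.push 0 true) (S4 σ ((toD x).enc ++ (toD y).enc) [] [] [])
      (S4 σ (toD (x, y)).enc [] [] []) 1 := by
    have := Ex.push (O := O) 0 true (S4 σ ((toD x).enc ++ (toD y).enc) [] [] [])
    rw [S4_u0] at this
    exact this
  exact (e1.seq (e2.seq (e3.seq (e4.seq (e5.seq (e6.seq e7)))))).mono (by omega)

/-- a decision on pairs, with the input pair on the stacks `0` and `1` -/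
theorem XT.run_dec2 {A : List Bool × List Bool → Bool} {g : List Bool × List Bool → ℕ}
    (h : XT O A g) :
    ∃ (c : Cmd) (k : ℕ), ∀ x y : List Bool, ∃ t ≤ (x.length + y.length + g (x, y) + 2) ^ k,
      Halts O c x y t ∧ (Accepts O c x y t ↔ A (x, y) = true) := by
  obtain ⟨p, m, P, hp⟩ := h
  obtain ⟨k, hk⟩ := exists_pow (16 * Polynomial.X + 20 + P.comp (4 * Polynomial.X + 3) + 1)
  refine ⟨.seq pairP p, k, fun x y => ?_⟩
  have hi : init x y = S4 (fun _ => []) x y [] [] := by
    funext r
    match r with
    | 0 => rfl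
    | 1 => rfl
    | 2 => rfl
    | 3 => rfl
    | n + 4 => rfl
  have e1 := pairP_ex (O := O) (fun _ => []) x y
  rw [← hi] at e1
  have e2 := hp (x, y) (S4 (fun _ => []) (toD (x, y)).enc [] [] []) rfl (fun r hr _ => by
    match r, hr with
    | 1, _ => rfl
    | 2, _ => rfl
    | 3, _ => rfl
    | n + 4, _ => rfl)
  obtain ⟨t, ht, he⟩ := e1.seq e2
  refine ⟨t, ht.trans (le_trans ?_ (hk _)), ?_⟩
  · have h1 : sz (x, y) ≤ 4 * x.length + 1 + (4 * y.length + 1) + 1 := by
      have h2 : sz (x, y) = sz x + sz y + 1 := rfl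
      have h3 : sz x ≤ 4 * x.length + 1 := size_bits x
      have h4 : sz y ≤ 4 * y.length + 1 := size_bits y
      omega
    have h2 := poly_mono P (show sz (x, y) + g (x, y) ≤
      4 * (x.length + y.length + g (x, y)) + 3 by omega)
    simp only [Polynomial.eval_comp, Polynomial.eval_add, Polynomial.eval_mul,
      Polynomial.eval_ofNat, Polynomial.eval_X, Polynomial.eval_one]
    omega
  · have hrun := he.run le_rfl
    unfold Halts Accepts
    rw [hrun]
    refine ⟨rfl, ?_⟩
    simp only [true_and, Function.update_self]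
    cases A (x, y) <;> simp [ToD.toD, D.enc]

end Pool.Agent.CKP
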